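import Mathlib
import Pool.Agent.Run7.h50.Final

set_option autoImplicit false

namespace Pool.Agent.Results.MP_b63a31_co.LinearExpansion

/-- For every `K` there is a finite graph `G` with `∇_r(G) ≤ 24 (r + 1)` for all `r` and with no
nonrepetitive colouring by `K` colours: the class of all finite graphs with
`∇_r(G) ≤ 24 (r + 1)` for all `r` has linear (hence single exponential) expansion and unbounded
nonrepetitive chromatic number. -/
theorem result :
    ∀ K : ℕ, ∃ (V : Type) (_ : Fintype V) (G : SimpleGraph V),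
      (∀ (r n : ℕ) (H : SimpleGraph (Fin n)) (B : Fin n → Set V) (x : Fin n → V),
        (∀ i j, i ≠ j → Disjoint (B i) (B j)) →
        (∀ i, x i ∈ B i ∧ ∀ y ∈ B i, ∃ p : G.Walk (x i) y,
          p.length ≤ r ∧ ∀ z ∈ p.support, z ∈ B i) →
        (∀ i j, H.Adj i j → ∃ a ∈ B i, ∃ b ∈ B j, G.Adj a b) →
        H.edgeSet.ncard ≤ 24 * (r + 1) * n) ∧
      ∀ f : V → Fin K, ∃ (u v : V) (p : G.Walk u v), p.IsPath ∧
        ∃ t : ℕ, 1 ≤ t ∧ p.support.length = 2 * t ∧
          (p.support.take t).map f = (p.support.drop t).map f := by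
  intro K
  obtain ⟨V, hV, G, h1, h2⟩ := Run7.h50.exists_graph K
  refine ⟨V, hV, G, ?_, ?_⟩
  · intro r n H B x hd hr hH
    refine (h1 r n H B x hd hr hH).trans ?_
    apply Nat.mul_le_mul_right
    omega
  · intro f
    by_contra hcon
    push Not at hcon
    apply h2
    refine ⟨f, ?_⟩
    intro u v p hp t ht
    refine hcon u v p hp t ?_ ht
    have : p.support.length ≠ 0 := by simp
    omega

end Pool.Agent.Results.MP_b63a31_co.LinearExpansion
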